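import Pool.Agent.Helper640.PL.Tree

/-!
# Path-like trees: runs of the machine and transformations
-/

namespace Pool.Agent.H640.PL

open SimpleGraph

/-- Soundness. -/
theorem exists_of_run {n : ℕ} {G : SimpleGraph (Fin n)} (hG : G.IsAcyclic) {A : ℕ → ℕ → Bool}
    (hA : ∀ a b : Fin n, A a b = true ↔ G.Adj a b) (hs : ∀ x y, A x y = true → A y x = true)
    {τ : ℕ → St} (h : IsRun A n τ) :
    ∃ (S : Finset ℕ) (κ : ℕ → ℕ), Sw n S κ ∧ Nonempty (G ≃g transformed n S κ) := by
  refine ⟨turns n τ, kap τ, h.sw, ?_⟩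
  let f : transformed n (turns n τ) (kap τ) →g G :=
    ⟨fun a => ⟨(τ a).x, (h.valid a.2).lt⟩, fun {a b} hab => (hA _ _).1 (h.hom hs hab)⟩
  have hf : ∀ a b c, (transformed n (turns n τ) (kap τ)).Adj a b →
      (transformed n (turns n τ) (kap τ)).Adj a c → b ≠ c → f b ≠ f c := by
    intro a b c hab hac hbc he
    exact h.locInj hab hac hbc (congrArg Fin.val he)
  have hc := transformed_connected h.pos h.sw
  exact locInj_iso hG hc f hf (Finite.injective_iff_surjective.1 (locInj_injective hG hc f hf))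

section comp

variable {n : ℕ} {S : Finset ℕ} {κ : ℕ → ℕ}

theorem uniq_old (hS : Sw n S κ) {t i j : ℕ} (hi : i ∈ S) (h1 : i < t) (h2 : t ≤ i + 1 + κ i)
    (hj : j ∈ S) (h3 : j < t) (h4 : t ≤ j + 1 + κ j) : i = j := by
  rcases Nat.lt_trichotomy i j with hij | hij | hij
  · have := hS.gap i hi j hj hij; omega
  · exact hij
  · have := hS.gap j hj i hi hij; omega

theorem uniq_new (hS : Sw n S κ) {t i j : ℕ} (hi : i ∈ S) (h1 : i - κ i ≤ t) (h2 : t ≤ i)
    (hj : j ∈ S) (h3 : j - κ j ≤ t) (h4 : t ≤ j) : i = j := by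
  rcases Nat.lt_trichotomy i j with hij | hij | hij
  · have := hS.gap i hi j hj hij; have := hS.le j hj; omega
  · exact hij
  · have := hS.gap j hj i hi hij; have := hS.le i hi; omega

/-- the last turn, if its new edge is not yet complete -/
def OldAt (S : Finset ℕ) (κ : ℕ → ℕ) (t : ℕ) : Prop := ∃ i ∈ S, i < t ∧ t ≤ i + 1 + κ i

/-- the next turn, if its new edge has begun -/
def NewAt (S : Finset ℕ) (κ : ℕ → ℕ) (t : ℕ) : Prop := ∃ i ∈ S, i - κ i ≤ t ∧ t ≤ i

open Classical in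
/-- the state at time `t` -/
noncomputable def stAt (S : Finset ℕ) (κ : ℕ → ℕ) (v : ℕ → ℕ) (t : ℕ) : St where
  c := t
  x := v t
  pf := decide (0 < t ∧ t - 1 ∉ S)
  p := v (t - 1)
  of := decide (OldAt S κ t)
  oa := if h : OldAt S κ t then v (h.choose - κ h.choose) else v 0
  ob := if h : OldAt S κ t then v (h.choose + 1 + κ h.choose) else v 0
  ol := if h : OldAt S κ t then h.choose + 1 + κ h.choose - t else 0
  nf := decide (NewAt S κ t)
  na := if h : NewAt S κ t then v (h.choose - κ h.choose) else v 0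
  nb := if h : NewAt S κ t then v (h.choose + 1 + κ h.choose) else v 0
  nk := if h : NewAt S κ t then t - (h.choose - κ h.choose) else 0

variable {v : ℕ → ℕ}

theorem stAt_of {t : ℕ} (h : (stAt S κ v t).of = true) : OldAt S κ t := by
  simpa [stAt] using h

theorem stAt_nf {t : ℕ} (h : (stAt S κ v t).nf = true) : NewAt S κ t := by
  simpa [stAt] using h

theorem stAt_pf {t : ℕ} : (stAt S κ v t).pf = true ↔ 0 < t ∧ t - 1 ∉ S := by
  simp [stAt]

theorem stAt_old (hS : Sw n S κ) {t i : ℕ} (hi : i ∈ S) (h1 : i < t) (h2 : t ≤ i + 1 + κ i) :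
    (stAt S κ v t).of = true ∧ (stAt S κ v t).oa = v (i - κ i) ∧
      (stAt S κ v t).ob = v (i + 1 + κ i) ∧ (stAt S κ v t).ol = i + 1 + κ i - t := by
  have h : OldAt S κ t := ⟨i, hi, h1, h2⟩
  have e : h.choose = i := by
    obtain ⟨g1, g2, g3⟩ := h.choose_spec
    exact uniq_old hS g1 g2 g3 hi h1 h2
  simp only [stAt]
  rw [dif_pos h, dif_pos h, dif_pos h, e]
  exact ⟨by simpa using h, rfl, rfl, rfl⟩

theorem stAt_new (hS : Sw n S κ) {t i : ℕ} (hi : i ∈ S) (h1 : i - κ i ≤ t) (h2 : t ≤ i) :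
    (stAt S κ v t).nf = true ∧ (stAt S κ v t).na = v (i - κ i) ∧
      (stAt S κ v t).nb = v (i + 1 + κ i) ∧ (stAt S κ v t).nk = t - (i - κ i) := by
  have h : NewAt S κ t := ⟨i, hi, h1, h2⟩
  have e : h.choose = i := by
    obtain ⟨g1, g2, g3⟩ := h.choose_spec
    exact uniq_new hS g1 g2 g3 hi h1 h2
  simp only [stAt]
  rw [dif_pos h, dif_pos h, dif_pos h, e]
  exact ⟨by simpa using h, rfl, rfl, rfl⟩

theorem stAt_of_false {t : ℕ} (h : ¬ OldAt S κ t) : (stAt S κ v t).of = false := by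
  simp [stAt, h]

theorem stAt_nf_false {t : ℕ} (h : ¬ NewAt S κ t) : (stAt S κ v t).nf = false := by
  simp [stAt, h]

/-- Completeness. -/
theorem run_of_sw {A : ℕ → ℕ → Bool} (hn : 0 < n) (hS : Sw n S κ) (hv : ∀ t < n, v t < n)
    (hinj : ∀ s < n, ∀ t < n, v s = v t → s = t)
    (hrow : ∀ t, t + 1 < n → t ∉ S → A (v t) (v (t + 1)) = true)
    (hcross : ∀ i ∈ S, A (v (i - κ i)) (v (i + 1 + κ i)) = true) :
    IsRun A n (stAt S κ v) := by
  have hvalid : ∀ t < n, Valid A n (stAt S κ v t) := by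
    intro t ht
    refine ⟨hv t ht, ?_, ?_, ?_, ?_, ?_⟩
    · intro h1 h2
      obtain ⟨i, hi, g1, g2⟩ := stAt_nf h1
      obtain ⟨_, e1, e2, e3⟩ := stAt_new (v := v) hS hi g1 g2
      rw [e1, e2]
      rw [e3] at h2
      have : i - κ i = t := by omega
      exact ⟨by rw [this]; rfl, hcross i hi⟩
    · intro h1 h2
      obtain ⟨i, hi, g1, g2⟩ := stAt_of h1
      obtain ⟨_, e1, e2, e3⟩ := stAt_old (v := v) hS hi g1 g2
      rw [e2]
      rw [e3] at h2
      have : i + 1 + κ i = t := by omega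
      rw [this]; rfl
    · intro h0 h1 h2 h3
      obtain ⟨g0, _⟩ := stAt_pf.1 h0
      obtain ⟨i, hi, g1, g2⟩ := stAt_of h1
      obtain ⟨_, e1, e2, e3⟩ := stAt_old (v := v) hS hi g1 g2
      rw [e1] at h3
      rw [e3] at h2
      have := hinj (t - 1) (by omega) (i - κ i) (by omega) h3
      have := hS.pos i hi
      omega
    · intro h0 h1 h2 h3
      obtain ⟨g0, _⟩ := stAt_pf.1 h0
      obtain ⟨i, hi, g1, g2⟩ := stAt_nf h1
      obtain ⟨_, e1, e2, e3⟩ := stAt_new (v := v) hS hi g1 g2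
      rw [e2] at h3
      have := hinj (t - 1) (by omega) (i + 1 + κ i) (hS.lt i hi) h3
      omega
    · intro h1 h2 h3 h4 h5
      obtain ⟨i, hi, g1, g2⟩ := stAt_of h1
      obtain ⟨_, e1, e2, e3⟩ := stAt_old (v := v) hS hi g1 g2
      obtain ⟨j, hj, g3, g4⟩ := stAt_nf h3
      obtain ⟨_, e4, e5, e6⟩ := stAt_new (v := v) hS hj g3 g4
      rw [e1, e5] at h5
      have := hinj (i - κ i) (by omega) (j + 1 + κ j) (hS.lt j hj) h5
      omega
  refine ⟨hn, ⟨rfl, hvalid 0 hn, ?_, ?_, ?_⟩, ?_, ⟨?_, ?_, ?_⟩⟩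
  · simp [stAt]
  · refine stAt_of_false ?_
    rintro ⟨i, _, h, _⟩
    omega
  · intro h
    obtain ⟨i, hi, g1, g2⟩ := stAt_nf h
    rw [(stAt_new (v := v) hS hi g1 g2).2.2.2]
    omega
  · intro t ht
    refine ⟨rfl, hvalid (t + 1) ht, ?_⟩
    by_cases hs : t ∈ S
    · right
      obtain ⟨f1, f2, f3, f4⟩ := stAt_new (v := v) hS hs (t := t) (by omega) le_rfl
      obtain ⟨f5, f6, f7, f8⟩ := stAt_old (v := v) hS hs (t := t + 1) (by omega) (by omega)
      have hle := hS.le t hs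
      have hpos := hS.pos t hs
      refine ⟨?_, f1, ?_, ⟨f5, by rw [f6, f2], by rw [f7, f3], ?_⟩, ?_, ?_⟩
      · simp [stAt, hs]
      · rw [f4]; omega
      · rw [f8, f4]; omega
      · intro h
        obtain ⟨i, hi, g1, g2⟩ := stAt_of h
        rw [(stAt_old (v := v) hS hi g1 g2).2.2.2]
        have := hS.gap i hi t hs g1
        omega
      · intro h
        obtain ⟨i, hi, g1, g2⟩ := stAt_nf h
        rw [(stAt_new (v := v) hS hi g1 g2).2.2.2]
        have := hS.gap t hs i hi (by omega)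
        omega
    · left
      refine ⟨?_, rfl, hrow t ht hs, ?_, ?_, ?_, ?_, ?_, ?_, ?_⟩
      · rw [stAt_pf]
        exact ⟨by omega, hs⟩
      · intro h0 h3
        obtain ⟨g0, _⟩ := stAt_pf.1 h0
        have := hinj (t + 1) ht (t - 1) (by omega) h3
        omega
      · intro h1 h2 h3
        obtain ⟨i, hi, g1, g2⟩ := stAt_of h1
        obtain ⟨_, e1, e2, e3⟩ := stAt_old (v := v) hS hi g1 g2
        rw [e1] at h3
        have := hinj (t + 1) ht (i - κ i) (by omega) h3
        omega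
      · intro h1 h2 h3
        obtain ⟨i, hi, g1, g2⟩ := stAt_nf h1
        obtain ⟨_, e1, e2, e3⟩ := stAt_new (v := v) hS hi g1 g2
        rw [e2] at h3
        rw [e3] at h2
        have := hinj (t + 1) ht (i + 1 + κ i) (hS.lt i hi) h3
        have := hS.pos i hi
        have := hS.le i hi
        omega
      · intro h1 h2
        obtain ⟨i, hi, g1, g2⟩ := stAt_of h1
        obtain ⟨e0, e1, e2, e3⟩ := stAt_old (v := v) hS hi g1 g2
        rw [e3] at h2
        obtain ⟨f0, f1, f2, f3⟩ := stAt_old (v := v) hS (t := t + 1) hi (by omega) (by omega)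
        rw [e1, e2, e3, f1, f2, f3]
        exact ⟨f0, rfl, rfl, by omega⟩
      · intro h1
        obtain ⟨i, hi, g1, g2⟩ := stAt_of h1
        have hne : i ≠ t := by
          rintro rfl
          exact hs hi
        obtain ⟨e0, e1, e2, e3⟩ := stAt_old (v := v) hS (t := t) hi (by omega) (by omega)
        exact ⟨e0, by rw [e3]; omega⟩
      · intro h1
        obtain ⟨i, hi, g1, g2⟩ := stAt_nf h1
        have hne : i ≠ t := by
          rintro rfl
          exact hs hi
        obtain ⟨e0, e1, e2, e3⟩ := stAt_new (v := v) hS hi g1 g2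
        obtain ⟨f0, f1, f2, f3⟩ := stAt_new (v := v) hS (t := t + 1) hi (by omega) (by omega)
        rw [e1, e2, e3, f1, f2, f3]
        exact ⟨f0, rfl, rfl, by omega⟩
      · intro h0 h1
        obtain ⟨i, hi, g1, g2⟩ := stAt_nf h1
        rw [(stAt_new (v := v) hS hi g1 g2).2.2.2]
        by_contra hc
        rw [(stAt_new (v := v) hS (t := t) hi (by omega) (by omega)).1] at h0
        cases h0
  · simp only [stAt]
    omega
  · refine stAt_nf_false ?_
    rintro ⟨i, hi, _, h⟩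
    have := hS.lt i hi
    omega
  · intro h
    obtain ⟨i, hi, g1, g2⟩ := stAt_of h
    rw [(stAt_old (v := v) hS hi g1 g2).2.2.2]
    have := hS.lt i hi
    omega

/-- All numbers in the states are small. -/
structure Small (n : ℕ) (σ : St) : Prop where
  c : σ.c < n
  x : σ.x < n
  p : σ.p < n
  oa : σ.oa < n
  ob : σ.ob < n
  ol : σ.ol < n
  na : σ.na < n
  nb : σ.nb < n
  nk : σ.nk < n

theorem small_stAt (hn : 0 < n) (hS : Sw n S κ) (hv : ∀ t < n, v t < n) {t : ℕ} (ht : t < n) :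
    Small n (stAt S κ v t) := by
  have h0 := hv 0 hn
  refine ⟨ht, hv t ht, hv _ (by omega), ?_, ?_, ?_, ?_, ?_, ?_⟩
  all_goals simp only [stAt]
  all_goals split_ifs with h
  all_goals first
    | exact h0
    | exact hn
    | (obtain ⟨g1, g2, g3⟩ := h.choose_spec
       have g4 := hS.lt _ g1
       have g5 := hS.le _ g1
       first
        | omega
        | exact hv _ (by omega))

end comp

/-- Completeness. -/
theorem run_of_exists {n : ℕ} (hn : 0 < n) {G : SimpleGraph (Fin n)} {A : ℕ → ℕ → Bool}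
    (hA : ∀ a b : Fin n, A a b = true ↔ G.Adj a b) {S : Finset ℕ} {κ : ℕ → ℕ} (hS : Sw n S κ)
    (h : Nonempty (G ≃g transformed n S κ)) :
    ∃ τ : ℕ → St, IsRun A n τ ∧ ∀ t < n, Small n (τ t) := by
  obtain ⟨e⟩ := h
  let v : ℕ → ℕ := fun t => if h : t < n then (e.symm ⟨t, h⟩ : Fin n) else 0
  have hv0 : ∀ t (h : t < n), v t = (e.symm ⟨t, h⟩ : Fin n) := fun t h => dif_pos h
  have hv : ∀ t < n, v t < n := by
    intro t ht
    rw [hv0 t ht]
    exact Fin.is_lt _
  have hadj : ∀ s t, (hs : s < n) → (ht : t < n) → (transformed n S κ).Adj ⟨s, hs⟩ ⟨t, ht⟩ →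
      A (v s) (v t) = true := by
    intro s t hs ht h
    rw [hv0 s hs, hv0 t ht, hA]
    exact e.symm.map_adj_iff.2 h
  refine ⟨stAt S κ v, run_of_sw hn hS hv ?_ ?_ ?_, fun t ht => small_stAt hn hS hv ht⟩
  · intro s hs t ht h
    rw [hv0 s hs, hv0 t ht] at h
    have := e.symm.injective (Fin.ext h)
    exact congrArg Fin.val this
  · intro t ht hs
    refine hadj t (t + 1) (by omega) ht ⟨?_, Or.inl ⟨rfl, hs⟩⟩
    intro h
    have := congrArg Fin.val h
    simp only at this
    omega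
  · intro i hi
    have := hS.lt i hi
    refine hadj _ _ (by omega) this ⟨?_, Or.inr (Or.inr ⟨i, hi, Or.inl ⟨rfl, rfl⟩⟩)⟩
    intro h
    have := congrArg Fin.val h
    simp only at this
    omega

end Pool.Agent.H640.PL
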