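import Pool.Agent.Helper640.PL.Defs

/-!
# Path-like trees: the structure theorem
-/

namespace Pool.Agent.H640.PL

theorem gridAdj_iff {a b : ℤ × ℤ} : GridAdj a b ↔
    (a.1 = b.1 ∧ (a.2 = b.2 + 1 ∨ b.2 = a.2 + 1)) ∨ (a.2 = b.2 ∧ (a.1 = b.1 + 1 ∨ b.1 = a.1 + 1)) := by
  unfold GridAdj
  rcases abs_cases (a.1 - b.1) with ⟨h1, h2⟩ | ⟨h1, h2⟩ <;>
    rcases abs_cases (a.2 - b.2) with ⟨h3, h4⟩ | ⟨h3, h4⟩ <;> rw [h1, h3] <;> omega

/-- two unit squares with three common vertices -/
theorem square {a b c d e : ℤ × ℤ} (hab : GridAdj a b) (hbc : GridAdj b c) (hcd : GridAdj c d)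
    (hde : GridAdj d e) (had : GridAdj a d) (hbe : GridAdj b e) (hbd : b ≠ d) (hac : a ≠ c)
    (hce : c ≠ e) : a = e := by
  obtain ⟨a1, a2⟩ := a
  obtain ⟨b1, b2⟩ := b
  obtain ⟨c1, c2⟩ := c
  obtain ⟨d1, d2⟩ := d
  obtain ⟨e1, e2⟩ := e
  rw [gridAdj_iff] at *
  simp only [ne_eq, Prod.mk.injEq] at *
  rcases hbc with ⟨h1, h2 | h2⟩ | ⟨h1, h2 | h2⟩ <;>
    rcases hcd with ⟨h3, h4 | h4⟩ | ⟨h3, h4 | h4⟩ <;> omega

theorem gap_aux {n : ℕ} {p : ℕ → ℤ × ℤ} (hp : GridPath n p) {i j k l : ℕ} (hi : Elem n p i k)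
    (hj : Elem n p j l) (hk : 1 ≤ k) (hl : 1 ≤ l) (hij : i < j) : i + 1 + k ≤ j ∧ i + 1 + l ≤ j := by
  have hne : j ≠ i + 1 := by
    rintro rfl
    have hk1 : k = 1 := by
      by_contra hk1
      have h1 := hi.forth (i + 1 + 1) (by omega) (by omega)
      exact hj.turn_after h1.symm
    have hl1 : l = 1 := by
      by_contra hl1
      have h1 := hj.back (i - 1) (by have := hi.pos; omega) (by omega)
      rw [Nat.add_sub_cancel] at h1
      exact hi.turn_before h1
    subst hk1
    subst hl1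
    have e1 := hi.pos
    have e2 := hj.le_end
    obtain ⟨m, rfl⟩ : ∃ m, i = m + 1 := ⟨i - 1, by omega⟩
    have a1 := hi.adj
    have a2 := hj.adj
    rw [Nat.add_sub_cancel] at a1 a2
    have h1 := square (hp.step m (by omega)) (hp.step (m + 1) (by omega))
      (hp.step (m + 1 + 1) (by omega)) (hp.step (m + 1 + 1 + 1) (by omega)) a1 a2
      (fun h => by have := hp.inj _ (by omega) _ (by omega) h; omega)
      (fun h => by have := hp.inj _ (by omega) _ (by omega) h; omega)
      (fun h => by have := hp.inj _ (by omega) _ (by omega) h; omega)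
    have := hp.inj _ (by omega) _ (by omega) h1
    omega
  constructor
  · by_contra h
    have h1 := hi.forth j (by omega) (by omega)
    have h2 := hi.forth (j - 1) (by omega) (by omega)
    exact hj.turn_before (h2.trans h1.symm)
  · by_contra h
    have h1 := hj.back i (by omega) (by omega)
    have h2 := hj.back (i + 1) (by omega) (by omega)
    exact hi.turn_after (h1.trans h2.symm)

theorem transformed_filter (n : ℕ) (S : Finset ℕ) (κ : ℕ → ℕ) :
    transformed n S κ = transformed n (S.filter fun i => κ i ≠ 0) κ := by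
  ext a b
  unfold transformed
  simp only [Finset.mem_filter]
  constructor
  · rintro ⟨h0, h | h | ⟨i, hi, h⟩⟩
    · exact ⟨h0, Or.inl ⟨h.1, fun h1 => h.2 h1.1⟩⟩
    · exact ⟨h0, Or.inr (Or.inl ⟨h.1, fun h1 => h.2 h1.1⟩)⟩
    · by_cases hk : κ i = 0
      · rw [hk] at h
        rcases h with ⟨h1, h2⟩ | ⟨h1, h2⟩
        · refine ⟨h0, Or.inl ⟨by omega, fun h3 => h3.2 ?_⟩⟩
          have : (a : ℕ) = i := by omega
          rw [this]
          exact hk
        · refine ⟨h0, Or.inr (Or.inl ⟨by omega, fun h3 => h3.2 ?_⟩)⟩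
          have : (b : ℕ) = i := by omega
          rw [this]
          exact hk
      · exact ⟨h0, Or.inr (Or.inr ⟨i, ⟨hi, hk⟩, h⟩)⟩
  · rintro ⟨h0, h | h | ⟨i, hi, h⟩⟩
    · by_cases ha : (a : ℕ) ∈ S
      · have hk : κ a = 0 := by
          by_contra hk
          exact h.2 ⟨ha, hk⟩
        exact ⟨h0, Or.inr (Or.inr ⟨a, ha, Or.inl ⟨by omega, by omega⟩⟩)⟩
      · exact ⟨h0, Or.inl ⟨h.1, ha⟩⟩
    · by_cases hb : (b : ℕ) ∈ S
      · have hk : κ b = 0 := by
          by_contra hk
          exact h.2 ⟨hb, hk⟩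
        exact ⟨h0, Or.inr (Or.inr ⟨b, hb, Or.inr ⟨by omega, by omega⟩⟩)⟩
      · exact ⟨h0, Or.inr (Or.inl ⟨h.1, hb⟩)⟩
    · exact ⟨h0, Or.inr (Or.inr ⟨i, hi.1, h⟩)⟩

/-! ### The embedding -/

/-- the sign of a row -/
def sgn (S : Finset ℕ) (t : ℕ) : ℤ := (-1) ^ (S.filter (fun i => i < t)).card

/-- the embedding in rows -/
def emb (S : Finset ℕ) : ℕ → ℤ × ℤ
  | 0 => (0, 0)
  | t + 1 => if t ∈ S then ((emb S t).1, (emb S t).2 + 1) else ((emb S t).1 + sgn S t, (emb S t).2)

variable {S : Finset ℕ}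

theorem emb_mem {t : ℕ} (h : t ∈ S) : emb S (t + 1) = ((emb S t).1, (emb S t).2 + 1) := by
  rw [emb, if_pos h]

theorem emb_not {t : ℕ} (h : t ∉ S) : emb S (t + 1) = ((emb S t).1 + sgn S t, (emb S t).2) := by
  rw [emb, if_neg h]

theorem sgn_sq (t : ℕ) : sgn S t = 1 ∨ sgn S t = -1 := by
  unfold sgn
  exact neg_one_pow_eq_or ℤ _

theorem sgn_succ_not {t : ℕ} (h : t ∉ S) : sgn S (t + 1) = sgn S t := by
  unfold sgn
  congr 2
  ext i
  simp only [Finset.mem_filter]
  constructor
  · rintro ⟨h1, h2⟩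
    refine ⟨h1, ?_⟩
    rcases Nat.lt_or_ge i t with h3 | h3
    · exact h3
    · have : i = t := by omega
      rw [this] at h1
      exact absurd h1 h
  · rintro ⟨h1, h2⟩
    exact ⟨h1, by omega⟩

theorem sgn_succ_mem {t : ℕ} (h : t ∈ S) : sgn S (t + 1) = - sgn S t := by
  unfold sgn
  have h1 : S.filter (fun i => i < t + 1) = insert t (S.filter (fun i => i < t)) := by
    ext i
    simp only [Finset.mem_filter, Finset.mem_insert]
    constructor
    · rintro ⟨h1, h2⟩
      rcases Nat.lt_or_ge i t with h3 | h3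
      · exact Or.inr ⟨h1, h3⟩
      · exact Or.inl (by omega)
    · rintro (rfl | ⟨h1, h2⟩)
      · exact ⟨h, by omega⟩
      · exact ⟨h1, by omega⟩
  rw [h1, Finset.card_insert_of_notMem (by simp), pow_succ]
  ring

theorem sgn_row {a b : ℕ} (hab : a ≤ b) (h : ∀ s, a ≤ s → s < b → s ∉ S) : sgn S b = sgn S a := by
  induction b, hab using Nat.le_induction with
  | base => rfl
  | succ b hab ih =>
    rw [sgn_succ_not (h b hab (by omega)), ih fun s h1 h2 => h s h1 (by omega)]

theorem emb_row {a b : ℕ} (hab : a ≤ b) (h : ∀ s, a ≤ s → s < b → s ∉ S) :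
    emb S b = ((emb S a).1 + ((b - a : ℕ) : ℤ) * sgn S a, (emb S a).2) := by
  induction b, hab using Nat.le_induction with
  | base => simp
  | succ b hab ih =>
    rw [emb_not (h b hab (by omega)), ih fun s h1 h2 => h s h1 (by omega),
      sgn_row hab fun s h1 h2 => h s h1 (by omega)]
    have : ((b + 1 - a : ℕ) : ℤ) = ((b - a : ℕ) : ℤ) + 1 := by
      have : b + 1 - a = b - a + 1 := by omega
      rw [this]
      push_cast
      ring
    rw [this]
    simp only [Prod.mk.injEq, and_true]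
    ring

theorem emb_snd_le {a b : ℕ} (hab : a ≤ b) : (emb S a).2 ≤ (emb S b).2 := by
  induction b, hab using Nat.le_induction with
  | base => rfl
  | succ b hab ih =>
    by_cases h : b ∈ S
    · rw [emb_mem h]; simp only; omega
    · rw [emb_not h]; exact ih

theorem emb_inj {a b : ℕ} (hab : a < b) : emb S a ≠ emb S b := by
  intro he
  by_cases h : ∀ s, a ≤ s → s < b → s ∉ S
  · rw [emb_row hab.le h] at he
    have h1 := congrArg Prod.fst he
    simp only at h1
    have h2 : ((b - a : ℕ) : ℤ) * sgn S a = 0 := by linarith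
    have h3 : (1 : ℤ) ≤ ((b - a : ℕ) : ℤ) := by exact_mod_cast (by omega : 1 ≤ b - a)
    rcases sgn_sq (S := S) a with h4 | h4 <;> rw [h4] at h2 <;> omega
  · push Not at h
    obtain ⟨s, h1, h2, h3⟩ := h
    have h4 := emb_snd_le (S := S) h1
    have h5 := emb_snd_le (S := S) (a := s + 1) (b := b) (by omega)
    rw [emb_mem h3] at h5
    have h6 := congrArg Prod.snd he
    simp only at h5
    omega

theorem dir_mem {t : ℕ} (h : t ∈ S) : dir (emb S) t = (0, 1) := by
  unfold dir
  rw [emb_mem h]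
  ext <;> simp

theorem dir_not {t : ℕ} (h : t ∉ S) : dir (emb S) t = (sgn S t, 0) := by
  unfold dir
  rw [emb_not h]
  ext <;> simp

theorem gridPath_emb (n : ℕ) : GridPath n (emb S) where
  inj := by
    intro s _ t _ h
    rcases Nat.lt_trichotomy s t with h1 | h1 | h1
    · exact absurd h (emb_inj h1)
    · exact h1
    · exact absurd h.symm (emb_inj h1)
  step := by
    intro t _
    rw [gridAdj_iff]
    by_cases h : t ∈ S
    · rw [emb_mem h]
      left
      simp
    · rw [emb_not h]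
      right
      rcases sgn_sq (S := S) t with h4 | h4 <;> rw [h4] <;> simp

theorem elem_emb {n : ℕ} {κ : ℕ → ℕ} (hS : Sw n S κ) {i : ℕ} (hi : i ∈ S) :
    Elem n (emb S) i (κ i) := by
  have h1 := hS.pos i hi
  have h2 := hS.le i hi
  have h3 := hS.lt i hi
  have hb : ∀ s, i - κ i ≤ s → s < i → s ∉ S := by
    intro s h4 h5 h6
    have := (hS.gap s h6 i hi h5).2
    omega
  have hf : ∀ s, i + 1 ≤ s → s < i + 1 + κ i → s ∉ S := by
    intro s h4 h5 h6
    have := (hS.gap i hi s h6 (by omega)).1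
    omega
  have hne : ∀ t, ((sgn S t, 0) : ℤ × ℤ) ≠ (0, 1) := by
    intro t h
    have := congrArg Prod.snd h
    simp at this
  refine ⟨by omega, by omega, ?_, ?_, h2, ?_, h3, ?_, ?_⟩
  · rw [dir_not (hb (i - 1) (by omega) (by omega)), dir_mem hi]
    exact hne _
  · rw [dir_not (hf (i + 1) (by omega) (by omega)), dir_mem hi]
    exact (hne _).symm
  · intro s h4 h5
    rw [dir_not (hb s h4 h5), dir_not (hb (i - 1) (by omega) (by omega)),
      sgn_row (a := s) (b := i - 1) (by omega) fun u h6 h7 => hb u (by omega) (by omega)]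
  · intro s h4 h5
    rw [dir_not (hf s h4 h5), dir_not (hf (i + 1) (by omega) (by omega)),
      sgn_row (a := i + 1) (b := s) h4 fun u h6 h7 => hf u (by omega) (by omega)]
  · have e1 := emb_row (S := S) (a := i - κ i) (b := i) (by omega) hb
    have e2 := emb_row (S := S) (a := i + 1) (b := i + 1 + κ i) (by omega) hf
    have e3 := sgn_row (S := S) (a := i - κ i) (b := i) (by omega) hb
    have e4 := sgn_succ_mem hi
    have e5 := emb_mem hi
    have e6 : i - (i - κ i) = κ i := by omega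
    have e7 : i + 1 + κ i - (i + 1) = κ i := by omega
    rw [e6] at e1
    rw [e7, e4, e3, e5] at e2
    rw [gridAdj_iff]
    left
    rw [e2]
    simp only
    constructor
    · rw [e1]
      simp
    · right
      rw [e1]

/-- **Structure theorem for path-like trees.** -/
theorem isPathLike_iff {n : ℕ} (G : SimpleGraph (Fin n)) : IsPathLike G ↔
    G.IsTree ∧ ∃ (S : Finset ℕ) (κ : ℕ → ℕ), Sw n S κ ∧ Nonempty (G ≃g transformed n S κ) := by
  refine and_congr_right fun _ => ?_
  constructor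
  · rintro ⟨p, S, κ, hp, hS, hG⟩
    refine ⟨S.filter fun i => κ i ≠ 0, κ, ⟨?_, ?_, ?_, ?_⟩, ?_⟩
    · intro i hi
      have := (Finset.mem_filter.1 hi).2
      omega
    · intro i hi
      exact (hS i (Finset.mem_filter.1 hi).1).le
    · intro i hi
      exact (hS i (Finset.mem_filter.1 hi).1).le_end
    · intro i hi j hj hij
      rw [Finset.mem_filter] at hi hj
      exact gap_aux hp (hS i hi.1) (hS j hj.1) (by omega) (by omega) hij
    · rwa [← transformed_filter]
  · rintro ⟨S, κ, hS, hG⟩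
    exact ⟨emb S, S, κ, gridPath_emb n, fun i hi => elem_emb hS hi, hG⟩

end Pool.Agent.H640.PL
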