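import Pool.Agent.Helper640.PL.Comp
import Pool.Agent.Helper640.PL.Struct
import Pool.Agent.H719.PC.Reach
import Pool.Agent.H420.Gr

/-!
# Path-like trees: the decision procedure
-/

namespace Pool.Agent.H640.PL

open SimpleGraph Relation Pool.Agent.NPC Pool.Agent.H719.PC Pool.Agent.H420.Gr

/-! ### The machine, as Boolean functions -/

section bool

variable (A : ℕ → ℕ → Bool) (n : ℕ) (σ σ' : St)

def validB : Bool :=
  decide (σ.x < n) &&
  (!(σ.nf && decide (σ.nk = 0)) || (decide (σ.na = σ.x) && A σ.na σ.nb)) &&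
  (!(σ.of && decide (σ.ol = 0)) || decide (σ.x = σ.ob)) &&
  (!(σ.pf && (σ.of && decide (σ.ol = 0))) || !decide (σ.p = σ.oa)) &&
  (!(σ.pf && (σ.nf && decide (σ.nk = 0))) || !decide (σ.p = σ.nb)) &&
  (!((σ.of && decide (σ.ol = 0)) && (σ.nf && decide (σ.nk = 0))) || !decide (σ.oa = σ.nb))

def rowB : Bool :=
  σ'.pf && decide (σ'.p = σ.x) && A σ.x σ'.x &&
  (!σ.pf || !decide (σ'.x = σ.p)) &&
  (!(σ.of && decide (σ.ol = 0)) || !decide (σ'.x = σ.oa)) &&
  (!(σ.nf && decide (σ.nk = 0)) || !decide (σ'.x = σ.nb)) &&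
  (!(σ.of && !decide (σ.ol = 0)) ||
    (σ'.of && decide (σ'.oa = σ.oa) && decide (σ'.ob = σ.ob) && decide (σ'.ol + 1 = σ.ol))) &&
  (!σ'.of || (σ.of && !decide (σ.ol = 0))) &&
  (!σ.nf ||
    (σ'.nf && decide (σ'.na = σ.na) && decide (σ'.nb = σ.nb) && decide (σ'.nk = σ.nk + 1))) &&
  (!(!σ.nf) || (!σ'.nf || decide (σ'.nk = 0)))

def switchB : Bool :=
  !σ'.pf && σ.nf && !decide (σ.nk = 0) &&
  (σ'.of && decide (σ'.oa = σ.na) && decide (σ'.ob = σ.nb) && decide (σ'.ol = σ.nk)) &&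
  (!σ.of || decide (σ.ol = 0)) && (!σ'.nf || decide (σ'.nk = 0))

def stepB : Bool := decide (σ'.c = σ.c + 1) && validB A n σ' && (rowB A σ σ' || switchB σ σ')

def firstB : Bool :=
  decide (σ.c = 0) && validB A n σ && !σ.pf && !σ.of && (!σ.nf || decide (σ.nk = 0))

def lastB : Bool := decide (σ.c + 1 = n) && !σ.nf && (!σ.of || decide (σ.ol = 0))

variable {A n σ σ'}

theorem imp_iff (a b : Bool) : (!a || b) = true ↔ (a = true → b = true) := by
  cases a <;> cases b <;> simp

theorem validB_iff : validB A n σ = true ↔ Valid A n σ := by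
  unfold validB
  simp only [Bool.and_eq_true, imp_iff, decide_eq_true_eq, and_imp, Bool.not_eq_true',
    decide_eq_false_iff_not]
  constructor
  · rintro ⟨⟨⟨⟨⟨h1, h2⟩, h3⟩, h4⟩, h5⟩, h6⟩
    exact ⟨h1, h2, h3, h4, h5, h6⟩
  · rintro ⟨h1, h2, h3, h4, h5, h6⟩
    exact ⟨⟨⟨⟨⟨h1, h2⟩, h3⟩, h4⟩, h5⟩, h6⟩

theorem rowB_iff : rowB A σ σ' = true ↔ Row A σ σ' := by
  unfold rowB
  simp only [Bool.and_eq_true, imp_iff, decide_eq_true_eq, and_imp, Bool.not_eq_true',
    decide_eq_false_iff_not, and_assoc]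
  constructor
  · rintro ⟨h1, h2, h3, h4, h5, h6, h7, h8, h9, h10⟩
    exact ⟨h1, h2, h3, h4, h5, h6, h7, h8, h9, h10⟩
  · rintro ⟨h1, h2, h3, h4, h5, h6, h7, h8, h9, h10⟩
    exact ⟨h1, h2, h3, h4, h5, h6, h7, h8, h9, h10⟩

theorem switchB_iff : switchB σ σ' = true ↔ Switch σ σ' := by
  unfold switchB
  simp only [Bool.and_eq_true, imp_iff, decide_eq_true_eq, and_imp, Bool.not_eq_true',
    decide_eq_false_iff_not, and_assoc]
  constructor
  · rintro ⟨h1, h2, h3, h4, h5, h6, h7, h8, h9⟩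
    exact ⟨h1, h2, h3, ⟨h4, h5, h6, h7⟩, h8, h9⟩
  · rintro ⟨h1, h2, h3, ⟨h4, h5, h6, h7⟩, h8, h9⟩
    exact ⟨h1, h2, h3, h4, h5, h6, h7, h8, h9⟩

theorem stepB_iff : stepB A n σ σ' = true ↔ Step A n σ σ' := by
  unfold stepB Step
  rw [Bool.and_eq_true, Bool.and_eq_true, Bool.or_eq_true, decide_eq_true_eq, validB_iff, rowB_iff,
    switchB_iff, and_assoc]

theorem firstB_iff : firstB A n σ = true ↔ First A n σ := by
  unfold firstB
  simp only [Bool.and_eq_true, imp_iff, decide_eq_true_eq, and_imp, Bool.not_eq_true',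
    decide_eq_false_iff_not, and_assoc, validB_iff]
  constructor
  · rintro ⟨h1, h2, h3, h4, h5⟩
    exact ⟨h1, h2, h3, h4, h5⟩
  · rintro ⟨h1, h2, h3, h4, h5⟩
    exact ⟨h1, h2, h3, h4, h5⟩

theorem lastB_iff : lastB n σ = true ↔ Last n σ := by
  unfold lastB
  simp only [Bool.and_eq_true, imp_iff, decide_eq_true_eq, and_imp, Bool.not_eq_true',
    decide_eq_false_iff_not, and_assoc]
  constructor
  · rintro ⟨h1, h2, h3⟩
    exact ⟨h1, h2, h3⟩
  · rintro ⟨h1, h2, h3⟩
    exact ⟨h1, h2, h3⟩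

end bool

/-! ### States as tuples -/

/-- states as tuples -/
abbrev Tup : Type :=
  ℕ × ℕ × (Bool × ℕ) × (Bool × ℕ × ℕ × ℕ) × (Bool × ℕ × ℕ × ℕ)

instance decEqT4 : DecidableEq (Bool × ℕ × ℕ × ℕ) := inferInstance

instance decEqTup : DecidableEq Tup := instDecidableEqProd

/-- the state of a tuple -/
def toSt (y : Tup) : St where
  c := y.1
  x := y.2.1
  pf := y.2.2.1.1
  p := y.2.2.1.2
  of := y.2.2.2.1.1
  oa := y.2.2.2.1.2.1
  ob := y.2.2.2.1.2.2.1
  ol := y.2.2.2.1.2.2.2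
  nf := y.2.2.2.2.1
  na := y.2.2.2.2.2.1
  nb := y.2.2.2.2.2.2.1
  nk := y.2.2.2.2.2.2.2

/-- the tuple of a state -/
def ofSt (σ : St) : Tup :=
  (σ.c, σ.x, (σ.pf, σ.p), (σ.of, σ.oa, σ.ob, σ.ol), (σ.nf, σ.na, σ.nb, σ.nk))

theorem toSt_ofSt (σ : St) : toSt (ofSt σ) = σ := rfl

/-- all small tuples -/
def allT (n : ℕ) : List Tup :=
  List.range n ×ˢ (List.range n ×ˢ (([false, true] ×ˢ List.range n) ×ˢ
    (([false, true] ×ˢ (List.range n ×ˢ (List.range n ×ˢ List.range n))) ×ˢ
      ([false, true] ×ˢ (List.range n ×ˢ (List.range n ×ˢ List.range n))))))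

theorem mem_allT {n : ℕ} {σ : St} (h : Small n σ) : ofSt σ ∈ allT n := by
  obtain ⟨h1, h2, h3, h4, h5, h6, h7, h8, h9⟩ := h
  unfold allT ofSt
  simp only [List.mem_product, List.mem_range, List.mem_cons, List.not_mem_nil, or_false]
  refine ⟨h1, h2, ⟨?_, h3⟩, ⟨?_, h4, h5, h6⟩, ?_, h7, h8, h9⟩
  · cases σ.pf <;> simp
  · cases σ.of <;> simp
  · cases σ.nf <;> simp

/-- is there a run? -/
def runB (A : ℕ → ℕ → Bool) (n : ℕ) : Bool :=
  (allT n).any fun s => firstB A n (toSt s) &&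
    (reachG (fun y z => stepB A n (toSt y) (toSt z)) (allT n) s).any fun l => lastB n (toSt l)

theorem exists_seq {α : Type*} {r : α → α → Prop} {a b : α} (h : ReflTransGen r a b) :
    ∃ (m : ℕ) (τ : ℕ → α), τ 0 = a ∧ τ m = b ∧ ∀ t < m, r (τ t) (τ (t + 1)) := by
  classical
  induction h with
  | refl => exact ⟨0, fun _ => a, rfl, rfl, fun t ht => by omega⟩
  | @tail b c _ hbc ih =>
    obtain ⟨m, τ, h1, h2, h3⟩ := ih
    refine ⟨m + 1, fun t => if t ≤ m then τ t else c, ?_, ?_, ?_⟩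
    · simp [h1]
    · simp
    · intro t ht
      rcases Nat.lt_or_ge t m with h4 | h4
      · simp only
        rw [if_pos (by omega), if_pos (by omega)]
        exact h3 t h4
      · have : t = m := by omega
        subst this
        simp only
        rw [if_pos le_rfl, if_neg (by omega), h2]
        exact hbc

theorem runB_sound {A : ℕ → ℕ → Bool} {n : ℕ} (h : runB A n = true) : ∃ τ, IsRun A n τ := by
  unfold runB at h
  simp only [List.any_eq_true, Bool.and_eq_true] at h
  obtain ⟨s, hs, h1, l, h2, h3⟩ := h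
  rw [mem_reachG] at h2
  obtain ⟨m, τ, e0, e1, e2⟩ := exists_seq h2.2
  subst e0
  subst e1
  rw [firstB_iff] at h1
  rw [lastB_iff] at h3
  have hc : ∀ t, t ≤ m → (toSt (τ t)).c = t := by
    intro t
    induction t with
    | zero => exact fun _ => h1.c
    | succ t ih =>
      intro ht
      have := (stepB_iff.1 (e2 t (by omega)).1).1
      rw [this, ih (by omega)]
  have hm : m + 1 = n := by
    rw [← h3.c, hc m le_rfl]
  subst hm
  refine ⟨fun t => toSt (τ t), by omega, h1, ?_, h3⟩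
  intro t ht
  exact stepB_iff.1 (e2 t (by omega)).1

theorem runB_complete {A : ℕ → ℕ → Bool} {n : ℕ} {τ : ℕ → St} (h : IsRun A n τ)
    (hs : ∀ t < n, Small n (τ t)) : runB A n = true := by
  unfold runB
  simp only [List.any_eq_true, Bool.and_eq_true]
  have hn := h.pos
  refine ⟨ofSt (τ 0), mem_allT (hs 0 hn), firstB_iff.2 h.first, ofSt (τ (n - 1)), ?_,
    lastB_iff.2 h.last⟩
  rw [mem_reachG]
  refine ⟨mem_allT (hs 0 hn), ?_⟩
  have key : ∀ t, t < n → ReflTransGen (fun a b : Tup =>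
      stepB A n (toSt a) (toSt b) = true ∧ b ∈ allT n) (ofSt (τ 0)) (ofSt (τ t)) := by
    intro t
    induction t with
    | zero => exact fun _ => .refl
    | succ t ih =>
      intro ht
      exact (ih (by omega)).tail ⟨stepB_iff.2 (h.step t ht), mem_allT (hs _ ht)⟩
  exact key (n - 1) (by omega)

/-! ### Trees -/

theorem mem_reach_iff {n : ℕ} {G : SimpleGraph (Fin n)} {R : ℕ → ℕ → Bool}
    (hR : ∀ a b : Fin n, R a b = true ↔ G.Adj a b) (x y : Fin n) :
    (y : ℕ) ∈ reachG R (List.range n) x ↔ G.Reachable x y := by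
  rw [mem_reachG, List.mem_range, SimpleGraph.reachable_iff_reflTransGen]
  constructor
  · rintro ⟨_, h⟩
    have key : ∀ z : ℕ, ReflTransGen (fun a b => R a b = true ∧ b ∈ List.range n) (x : ℕ) z →
        ∀ hz : z < n, ReflTransGen G.Adj x ⟨z, hz⟩ := by
      intro z h
      induction h with
      | refl => exact fun _ => .refl
      | @tail b c hb hbc ih =>
        intro hz
        have hbn : b < n := by
          rcases ReflTransGen.cases_tail hb with h1 | ⟨_, _, h1⟩
          · rw [h1]; exact x.2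
          · exact List.mem_range.1 h1.2
        exact (ih hbn).tail ((hR ⟨b, hbn⟩ ⟨c, hz⟩).1 hbc.1)
    exact key y h y.2
  · intro h
    refine ⟨x.2, ?_⟩
    induction h with
    | refl => exact .refl
    | @tail b c _ hbc ih => exact ih.tail ⟨(hR b c).2 hbc, List.mem_range.2 c.2⟩

/-- is the graph connected? -/
def connB (A : ℕ → ℕ → Bool) (n : ℕ) : Bool :=
  (List.range n ×ˢ List.range n).all fun p => decide (p.2 ∈ reachG A (List.range n) p.1)

/-- is the graph acyclic? -/
def acycB (A : ℕ → ℕ → Bool) (n : ℕ) : Bool :=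
  (List.range n ×ˢ List.range n).all fun p => !A p.1 p.2 ||
    !decide (p.2 ∈ reachG (fun a b => A a b && !(decide (a = p.1) && decide (b = p.2)) &&
      !(decide (a = p.2) && decide (b = p.1))) (List.range n) p.1)

variable {n : ℕ} {G : SimpleGraph (Fin n)} {A : ℕ → ℕ → Bool}

theorem connB_iff (hA : ∀ a b : Fin n, A a b = true ↔ G.Adj a b) :
    connB A n = true ↔ G.Preconnected := by
  unfold connB
  simp only [List.all_eq_true, decide_eq_true_eq, List.mem_product, List.mem_range, Prod.forall]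
  constructor
  · intro h x y
    exact (mem_reach_iff hA x y).1 (h x y ⟨x.2, y.2⟩)
  · rintro h x y ⟨hx, hy⟩
    exact (mem_reach_iff hA ⟨x, hx⟩ ⟨y, hy⟩).2 (h _ _)

theorem acycB_iff (hA : ∀ a b : Fin n, A a b = true ↔ G.Adj a b) :
    acycB A n = true ↔ G.IsAcyclic := by
  unfold acycB
  rw [isAcyclic_iff_forall_adj_isBridge]
  simp only [List.all_eq_true, List.mem_product, List.mem_range, Prod.forall,
    Bool.or_eq_true, Bool.not_eq_true', decide_eq_false_iff_not]
  have key : ∀ x y : Fin n, ((y : ℕ) ∈ reachG (fun a b => A a b &&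
      !(decide (a = (x : ℕ)) && decide (b = (y : ℕ))) &&
      !(decide (a = (y : ℕ)) && decide (b = (x : ℕ)))) (List.range n) x) ↔
      (G.deleteEdges {s(x, y)}).Reachable x y := by
    intro x y
    refine mem_reach_iff (fun a b => ?_) x y
    rw [deleteEdges_adj, Set.mem_singleton_iff, Sym2.eq_iff]
    simp only [Bool.and_eq_true, Bool.not_eq_true', Bool.and_eq_false_iff, decide_eq_false_iff_not,
      hA, Fin.ext_iff]
    tauto
  constructor
  · intro h x y hxy
    rw [isBridge_iff, ← key]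
    rcases h x y ⟨x.2, y.2⟩ with h1 | h1
    · rw [(hA x y).2 hxy] at h1
      cases h1
    · exact h1
  · rintro h x y ⟨hx, hy⟩
    rcases hxy : A x y with _ | _
    · exact Or.inl rfl
    · right
      have := h ((hA ⟨x, hx⟩ ⟨y, hy⟩).1 hxy)
      rw [isBridge_iff, ← key] at this
      exact this

/-- the adjacency function of a matrix -/
def adjB (M : List (List Bool)) (a b : ℕ) : Bool :=
  !decide (a = b) && (entry M a b || entry M b a)

theorem adjB_iff {M : List (List Bool)} (a b : Fin M.length) :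
    adjB M a b = true ↔ (graphOf M).Adj a b := by
  unfold adjB graphOf eGraph
  simp only [Bool.and_eq_true, Bool.or_eq_true, Bool.not_eq_true', decide_eq_false_iff_not, ne_eq,
    Fin.ext_iff]

theorem adjB_symm {M : List (List Bool)} (a b : ℕ) (h : adjB M a b = true) :
    adjB M b a = true := by
  unfold adjB at *
  simp only [Bool.and_eq_true, Bool.or_eq_true, Bool.not_eq_true', decide_eq_false_iff_not] at *
  exact ⟨fun h1 => h.1 h1.symm, h.2.symm⟩

/-- the decision function -/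
def decB (M : List (List Bool)) : Bool :=
  decide (0 < M.length) && connB (adjB M) M.length && acycB (adjB M) M.length &&
    runB (adjB M) M.length

theorem decB_iff (M : List (List Bool)) : IsPathLike (graphOf M) ↔ decB M = true := by
  unfold decB
  rw [Bool.and_eq_true, Bool.and_eq_true, Bool.and_eq_true, decide_eq_true_eq,
    connB_iff adjB_iff, acycB_iff adjB_iff, isPathLike_iff]
  constructor
  · rintro ⟨hT, S, κ, hS, hG⟩
    have hn : 0 < M.length := by
      obtain ⟨x⟩ := hT.connected.nonempty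
      have := x.2
      omega
    obtain ⟨τ, hτ, hs⟩ := run_of_exists hn adjB_iff hS hG
    exact ⟨⟨⟨hn, hT.connected.preconnected⟩, hT.isAcyclic⟩, runB_complete hτ hs⟩
  · rintro ⟨⟨⟨hn, hc⟩, ha⟩, hr⟩
    obtain ⟨τ, hτ⟩ := runB_sound hr
    have : Nonempty (Fin M.length) := ⟨⟨0, hn⟩⟩
    exact ⟨⟨⟨hc⟩, ha⟩, exists_of_run ha adjB_iff adjB_symm hτ⟩

end Pool.Agent.H640.PL
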