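import Mathlib.Combinatorics.SimpleGraph.Acyclic
import Mathlib.Algebra.Order.Ring.Int
import Mathlib.Tactic

/-!
# Path-like trees: definitions
-/

namespace Pool.Agent.H640.PL

/-- Adjacency in the two-dimensional grid: two points of `ℤ²` at distance 1. -/
def GridAdj (a b : ℤ × ℤ) : Prop := |a.1 - b.1| + |a.2 - b.2| = 1

/-- `v_t ↦ p t`, `t < n`, is a crossing-free embedding of the path `v_0 v_1 … v_{n-1}` in the grid. -/
structure GridPath (n : ℕ) (p : ℕ → ℤ × ℤ) : Prop where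
  inj : ∀ s < n, ∀ t < n, p s = p t → s = t
  step : ∀ t, t + 1 < n → GridAdj (p t) (p (t + 1))

/-- The direction of the edge `v_t v_{t+1}`. Consecutive edges belong to the same straight segment
if and only if they have the same direction. -/
def dir (p : ℕ → ℤ × ℤ) (t : ℕ) : ℤ × ℤ := p (t + 1) - p t

/-- An elementary transformation of the embedding `p` of the path with `n` vertices: the edge
`v_i v_{i+1}` is a maximal straight segment, neither the first nor the last one; `v_{i-k}` is on the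
segment ending in `v_i`, `v_{i+1+k}` is on the segment starting in `v_{i+1}` (both have distance `k`
to the ends of the edge), and they are adjacent in the grid. The edge `v_i v_{i+1}` is to be replaced
by `v_{i-k} v_{i+1+k}`. -/
structure Elem (n : ℕ) (p : ℕ → ℤ × ℤ) (i k : ℕ) : Prop where
  pos : 1 ≤ i
  lt : i + 2 < n
  turn_before : dir p (i - 1) ≠ dir p i
  turn_after : dir p i ≠ dir p (i + 1)
  le : k ≤ i
  back : ∀ s, i - k ≤ s → s < i → dir p s = dir p (i - 1)
  le_end : i + 1 + k < n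
  forth : ∀ s, i + 1 ≤ s → s < i + 1 + k → dir p s = dir p (i + 1)
  adj : GridAdj (p (i - k)) (p (i + 1 + k))

/-- The graph obtained from the path `v_0 … v_{n-1}` by replacing the edge `v_i v_{i+1}` by
`v_{i-κ(i)} v_{i+1+κ(i)}` for each `i` in `S`. -/
def transformed (n : ℕ) (S : Finset ℕ) (κ : ℕ → ℕ) : SimpleGraph (Fin n) where
  Adj a b := a ≠ b ∧
    (((b : ℕ) = a + 1 ∧ (a : ℕ) ∉ S) ∨ ((a : ℕ) = b + 1 ∧ (b : ℕ) ∉ S) ∨
      ∃ i ∈ S, ((a : ℕ) = i - κ i ∧ (b : ℕ) = i + 1 + κ i) ∨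
        ((b : ℕ) = i - κ i ∧ (a : ℕ) = i + 1 + κ i))
  symm := ⟨by
    rintro a b ⟨h, h1 | h1 | ⟨i, hi, h1⟩⟩
    · exact ⟨h.symm, Or.inr (Or.inl h1)⟩
    · exact ⟨h.symm, Or.inl h1⟩
    · exact ⟨h.symm, Or.inr (Or.inr ⟨i, hi, h1.symm⟩)⟩⟩
  loopless := ⟨fun _ h => h.1 rfl⟩

/-- `G` is a path-like tree: a tree that is isomorphic to the graph obtained from some crossing-free
embedding of a path in the grid by performing a set of elementary transformations. -/
def IsPathLike {n : ℕ} (G : SimpleGraph (Fin n)) : Prop :=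
  G.IsTree ∧ ∃ (p : ℕ → ℤ × ℤ) (S : Finset ℕ) (κ : ℕ → ℕ), GridPath n p ∧
    (∀ i ∈ S, Elem n p i (κ i)) ∧ Nonempty (G ≃g transformed n S κ)

/-- The arithmetic conditions on the transformations. -/
structure Sw (n : ℕ) (S : Finset ℕ) (κ : ℕ → ℕ) : Prop where
  pos : ∀ i ∈ S, 1 ≤ κ i
  le : ∀ i ∈ S, κ i ≤ i
  lt : ∀ i ∈ S, i + 1 + κ i < n
  gap : ∀ i ∈ S, ∀ j ∈ S, i < j → i + 1 + κ i ≤ j ∧ i + 1 + κ j ≤ j

end Pool.Agent.H640.PL
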