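import Pool.Agent.Helper640.PL.Defs

/-!
# Path-like trees: the scanning machine
-/

namespace Pool.Agent.H640.PL

/-- A state of the scanning machine: the number `c` of the current vertex on the path, the current
vertex `x`, the previous vertex `p` of the row (if `pf`), the edge `oa ob` that replaces the last
removed edge, with `ob` still `ol` steps ahead (if `of`), and the edge `na nb` that replaces the next
removed edge, with `na` by `nk` steps behind (if `nf`). -/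
structure St where
  c : ℕ
  x : ℕ
  pf : Bool
  p : ℕ
  of : Bool
  oa : ℕ
  ob : ℕ
  ol : ℕ
  nf : Bool
  na : ℕ
  nb : ℕ
  nk : ℕ

/-- The local conditions at one state. -/
structure Valid (A : ℕ → ℕ → Bool) (n : ℕ) (σ : St) : Prop where
  lt : σ.x < n
  new : σ.nf = true → σ.nk = 0 → σ.na = σ.x ∧ A σ.na σ.nb = true
  old : σ.of = true → σ.ol = 0 → σ.x = σ.ob
  po : σ.pf = true → σ.of = true → σ.ol = 0 → σ.p ≠ σ.oa
  pw : σ.pf = true → σ.nf = true → σ.nk = 0 → σ.p ≠ σ.nb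
  ow : σ.of = true → σ.ol = 0 → σ.nf = true → σ.nk = 0 → σ.oa ≠ σ.nb

/-- A step inside a row. -/
structure Row (A : ℕ → ℕ → Bool) (σ σ' : St) : Prop where
  pf : σ'.pf = true
  p : σ'.p = σ.x
  adj : A σ.x σ'.x = true
  qp : σ.pf = true → σ'.x ≠ σ.p
  qo : σ.of = true → σ.ol = 0 → σ'.x ≠ σ.oa
  qw : σ.nf = true → σ.nk = 0 → σ'.x ≠ σ.nb
  old : σ.of = true → σ.ol ≠ 0 →
    σ'.of = true ∧ σ'.oa = σ.oa ∧ σ'.ob = σ.ob ∧ σ'.ol + 1 = σ.ol
  old0 : σ'.of = true → σ.of = true ∧ σ.ol ≠ 0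
  new : σ.nf = true → σ'.nf = true ∧ σ'.na = σ.na ∧ σ'.nb = σ.nb ∧ σ'.nk = σ.nk + 1
  new0 : σ.nf = false → σ'.nf = true → σ'.nk = 0

/-- A step to the next row. -/
structure Switch (σ σ' : St) : Prop where
  pf : σ'.pf = false
  nf : σ.nf = true
  nk : σ.nk ≠ 0
  old : σ'.of = true ∧ σ'.oa = σ.na ∧ σ'.ob = σ.nb ∧ σ'.ol = σ.nk
  old0 : σ.of = true → σ.ol = 0
  new0 : σ'.nf = true → σ'.nk = 0

/-- A step. -/
def Step (A : ℕ → ℕ → Bool) (n : ℕ) (σ σ' : St) : Prop :=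
  σ'.c = σ.c + 1 ∧ Valid A n σ' ∧ (Row A σ σ' ∨ Switch σ σ')

/-- A first state. -/
structure First (A : ℕ → ℕ → Bool) (n : ℕ) (σ : St) : Prop where
  c : σ.c = 0
  valid : Valid A n σ
  pf : σ.pf = false
  of : σ.of = false
  new0 : σ.nf = true → σ.nk = 0

/-- A last state. -/
structure Last (n : ℕ) (σ : St) : Prop where
  c : σ.c + 1 = n
  nf : σ.nf = false
  ol : σ.of = true → σ.ol = 0

/-- A run. -/
structure IsRun (A : ℕ → ℕ → Bool) (n : ℕ) (τ : ℕ → St) : Prop where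
  pos : 0 < n
  first : First A n (τ 0)
  step : ∀ t, t + 1 < n → Step A n (τ t) (τ (t + 1))
  last : Last n (τ (n - 1))

section sound

variable {A : ℕ → ℕ → Bool} {n : ℕ} {τ : ℕ → St}

/-- the turns of a run -/
def turns (n : ℕ) (τ : ℕ → St) : Finset ℕ :=
  (Finset.range n).filter fun t => t + 1 < n ∧ (τ (t + 1)).pf = false

/-- the numbers `κ` of a run -/
def kap (τ : ℕ → St) (t : ℕ) : ℕ := (τ t).nk

theorem mem_turns {t : ℕ} : t ∈ turns n τ ↔ t + 1 < n ∧ (τ (t + 1)).pf = false := by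
  unfold turns
  rw [Finset.mem_filter, Finset.mem_range]
  constructor
  · exact fun h => h.2
  · exact fun h => ⟨by omega, h⟩

theorem IsRun.row (h : IsRun A n τ) {t : ℕ} (ht : t + 1 < n) (hs : t ∉ turns n τ) :
    Row A (τ t) (τ (t + 1)) := by
  rcases (h.step t ht).2.2 with h1 | h1
  · exact h1
  · exact absurd (mem_turns.2 ⟨ht, h1.pf⟩) hs

theorem IsRun.switch (h : IsRun A n τ) {t : ℕ} (hs : t ∈ turns n τ) :
    Switch (τ t) (τ (t + 1)) := by
  obtain ⟨h1, h2⟩ := mem_turns.1 hs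
  rcases (h.step t h1).2.2 with h3 | h3
  · rw [h3.pf] at h2
    cases h2
  · exact h3

theorem IsRun.valid (h : IsRun A n τ) {t : ℕ} (ht : t < n) : Valid A n (τ t) := by
  cases t with
  | zero => exact h.first.valid
  | succ t => exact (h.step t ht).2.1

/-- the facts about the next turn -/
theorem IsRun.new (h : IsRun A n τ) : ∀ t, t < n → (τ t).nf = true →
    (τ t).nk ≤ t ∧ (∀ s, t - (τ t).nk ≤ s → s < t → s ∉ turns n τ) ∧
      (τ t).na = (τ (t - (τ t).nk)).x ∧ A (τ t).na (τ t).nb = true ∧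
      (τ (t - (τ t).nk)).nf = true ∧ (τ (t - (τ t).nk)).nk = 0 ∧
      (τ (t - (τ t).nk)).nb = (τ t).nb := by
  have base : ∀ t, t < n → (τ t).nf = true → (τ t).nk = 0 →
    (τ t).nk ≤ t ∧ (∀ s, t - (τ t).nk ≤ s → s < t → s ∉ turns n τ) ∧
      (τ t).na = (τ (t - (τ t).nk)).x ∧ A (τ t).na (τ t).nb = true ∧
      (τ (t - (τ t).nk)).nf = true ∧ (τ (t - (τ t).nk)).nk = 0 ∧
      (τ (t - (τ t).nk)).nb = (τ t).nb := by
    intro t ht hf hk
    have h1 := (h.valid ht).new hf hk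
    rw [hk]
    refine ⟨by omega, fun s h2 h3 => by omega, ?_⟩
    rw [Nat.sub_zero]
    exact ⟨h1.1, h1.2, hf, hk, rfl⟩
  intro t
  induction t with
  | zero =>
    intro ht hf
    exact base 0 ht hf (h.first.new0 hf)
  | succ t ih =>
    intro ht hf
    by_cases hs : t ∈ turns n τ
    · exact base (t + 1) ht hf ((h.switch hs).new0 hf)
    · have hr := h.row ht hs
      rcases hn : (τ t).nf with _ | _
      · exact base (t + 1) ht hf (hr.new0 hn hf)
      · obtain ⟨h1, h2, h3, h4, h5, h6, h7⟩ := ih (by omega) hn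
        obtain ⟨g1, g2, g3, g4⟩ := hr.new hn
        have e : t + 1 - (τ (t + 1)).nk = t - (τ t).nk := by omega
        rw [e, g2, g3]
        refine ⟨by omega, fun s h8 h9 => ?_, h3, h4, h5, h6, h7⟩
        rcases Nat.lt_or_ge s t with h10 | h10
        · exact h2 s h8 h10
        · have : s = t := by omega
          rw [this]
          exact hs

/-- the facts about the last turn -/
theorem IsRun.old (h : IsRun A n τ) {i : ℕ} (hi : i ∈ turns n τ) : ∀ j, j ≤ kap τ i →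
    i + 1 + j < n ∧ (τ (i + 1 + j)).of = true ∧ (τ (i + 1 + j)).oa = (τ i).na ∧
      (τ (i + 1 + j)).ob = (τ i).nb ∧ (τ (i + 1 + j)).ol + j = kap τ i ∧
      ∀ s, i + 1 ≤ s → s < i + 1 + j → s ∉ turns n τ := by
  have hs := h.switch hi
  have hin := (mem_turns.1 hi).1
  intro j
  induction j with
  | zero =>
    intro _
    obtain ⟨h1, h2, h3, h4⟩ := hs.old
    rw [Nat.add_zero]
    exact ⟨hin, h1, h2, h3, h4, fun s h5 h6 => by omega⟩
  | succ j ih =>
    intro hj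
    obtain ⟨h1, h2, h3, h4, h5, h6⟩ := ih (by omega)
    have hne : (τ (i + 1 + j)).ol ≠ 0 := by omega
    have hlt : i + 1 + j + 1 < n := by
      by_contra hlt
      have e : n - 1 = i + 1 + j := by omega
      have := h.last.ol
      rw [e] at this
      exact hne (this h2)
    have hns : i + 1 + j ∉ turns n τ := fun hm => hne ((h.switch hm).old0 h2)
    have hr := h.row hlt hns
    obtain ⟨g1, g2, g3, g4⟩ := hr.old h2 hne
    refine ⟨hlt, g1, g2.trans h3, g3.trans h4, ?_, ?_⟩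
    · have e : i + 1 + (j + 1) = i + 1 + j + 1 := rfl
      rw [e]
      omega
    · intro s h7 h8
      rcases Nat.lt_or_ge s (i + 1 + j) with h9 | h9
      · exact h6 s h7 h9
      · have : s = i + 1 + j := by omega
        rw [this]
        exact hns

theorem IsRun.lt (_h : IsRun A n τ) {i : ℕ} (hi : i ∈ turns n τ) : i < n := by
  have := (mem_turns.1 hi).1
  omega

theorem IsRun.sw (h : IsRun A n τ) : Sw n (turns n τ) (kap τ) where
  pos := by
    intro i hi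
    have := (h.switch hi).nk
    unfold kap
    omega
  le := by
    intro i hi
    exact (h.new i (h.lt hi) (h.switch hi).nf).1
  lt := by
    intro i hi
    exact (h.old hi _ le_rfl).1
  gap := by
    intro i hi j hj hij
    constructor
    · by_contra _
      exact (h.old hi _ le_rfl).2.2.2.2.2 j (by omega) (by omega) hj
    · have h1 := h.new j (h.lt hj) (h.switch hj).nf
      by_contra hc
      refine h1.2.1 i ?_ hij hi
      unfold kap at hc
      omega

/-- the images of the neighbours of a vertex -/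
theorem IsRun.nbr (h : IsRun A n τ) {a b : Fin n}
    (hab : (transformed n (turns n τ) (kap τ)).Adj a b) :
    ((τ a).pf = true ∧ (τ a).p = (τ b).x ∧ (b : ℕ) + 1 = a ∧ A (τ b).x (τ a).x = true) ∨
    ((b : ℕ) = a + 1 ∧ (a : ℕ) ∉ turns n τ ∧ A (τ a).x (τ b).x = true) ∨
    ((τ a).nf = true ∧ (τ a).nk = 0 ∧ (τ a).nb = (τ b).x ∧ A (τ a).x (τ b).x = true ∧
      ∃ i ∈ turns n τ, (a : ℕ) = i - kap τ i ∧ (b : ℕ) = i + 1 + kap τ i) ∨
    ((τ a).of = true ∧ (τ a).ol = 0 ∧ (τ a).oa = (τ b).x ∧ A (τ b).x (τ a).x = true ∧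
      ∃ i ∈ turns n τ, (b : ℕ) = i - kap τ i ∧ (a : ℕ) = i + 1 + kap τ i) := by
  have key : ∀ i ∈ turns n τ, (τ (i - kap τ i)).nf = true ∧ (τ (i - kap τ i)).nk = 0 ∧
      (τ (i - kap τ i)).nb = (τ (i + 1 + kap τ i)).x ∧
      (τ (i + 1 + kap τ i)).of = true ∧ (τ (i + 1 + kap τ i)).ol = 0 ∧
      (τ (i + 1 + kap τ i)).oa = (τ (i - kap τ i)).x ∧
      A (τ (i - kap τ i)).x (τ (i + 1 + kap τ i)).x = true := by
    intro i hi
    obtain ⟨h1, _, h3, h4, h5, h6, h7⟩ := h.new i (h.lt hi) (h.switch hi).nf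
    obtain ⟨g1, g2, g3, g4, g5, _⟩ := h.old hi _ le_rfl
    have g6 := (h.valid g1).old g2 (by omega)
    change (τ (i - kap τ i)).nf = true at h5
    change (τ (i - kap τ i)).nk = 0 at h6
    change (τ (i - kap τ i)).nb = (τ i).nb at h7
    change (τ i).na = (τ (i - kap τ i)).x at h3
    rw [h3] at h4 g3
    rw [g4] at g6
    rw [← g6] at h4 h7
    exact ⟨h5, h6, h7, g2, by omega, g3, h4⟩
  rcases hab with ⟨h0, h1 | h1 | ⟨i, hi, h1 | h1⟩⟩
  · have h2 := h.row (t := a) (by have := b.2; omega) h1.2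
    rw [← h1.1] at h2
    exact Or.inr (Or.inl ⟨h1.1, h1.2, h2.adj⟩)
  · have h2 := h.row (t := b) (by have := a.2; omega) h1.2
    rw [← h1.1] at h2
    exact Or.inl ⟨h2.pf, h2.p, h1.1.symm, h2.adj⟩
  · obtain ⟨k1, k2, k3, k4, k5, k6, k7⟩ := key i hi
    rw [h1.1, h1.2]
    exact Or.inr (Or.inr (Or.inl ⟨k1, k2, k3, k7, i, hi, rfl, rfl⟩))
  · obtain ⟨k1, k2, k3, k4, k5, k6, k7⟩ := key i hi
    rw [h1.1, h1.2]
    exact Or.inr (Or.inr (Or.inr ⟨k4, k5, k6, k7, i, hi, rfl, rfl⟩))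

theorem IsRun.hom (h : IsRun A n τ) (hA : ∀ x y, A x y = true → A y x = true) {a b : Fin n}
    (hab : (transformed n (turns n τ) (kap τ)).Adj a b) : A (τ a).x (τ b).x = true := by
  rcases h.nbr hab with h1 | h1 | h1 | h1
  · exact hA _ _ h1.2.2.2
  · exact h1.2.2
  · exact h1.2.2.2.1
  · exact hA _ _ h1.2.2.2.1

theorem IsRun.locInj (h : IsRun A n τ) {a b c : Fin n}
    (hab : (transformed n (turns n τ) (kap τ)).Adj a b)
    (hac : (transformed n (turns n τ) (kap τ)).Adj a c) (hbc : b ≠ c) : (τ b).x ≠ (τ c).x := by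
  have hv := h.valid a.2
  have hsw := h.sw
  have hQ : ∀ {b c : Fin n}, ((b : ℕ) = a + 1 ∧ (a : ℕ) ∉ turns n τ ∧
      A (τ a).x (τ b).x = true) →
      (((τ a).pf = true ∧ (τ a).p = (τ c).x) ∨ ((τ a).nf = true ∧ (τ a).nk = 0 ∧
        (τ a).nb = (τ c).x) ∨ ((τ a).of = true ∧ (τ a).ol = 0 ∧ (τ a).oa = (τ c).x)) →
      (τ b).x ≠ (τ c).x := by
    intro b c hb hc
    have hr := h.row (t := a) (by have := b.2; omega) hb.2.1
    rw [← hb.1] at hr
    rcases hc with hc | hc | hc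
    · rw [← hc.2]; exact hr.qp hc.1
    · rw [← hc.2.2]; exact hr.qw hc.1 hc.2.1
    · rw [← hc.2.2]; exact hr.qo hc.1 hc.2.1
  rcases h.nbr hab with h1 | h1 | h1 | h1 <;> rcases h.nbr hac with h2 | h2 | h2 | h2
  · exact absurd (Fin.ext (by omega)) hbc
  · exact (hQ h2 (Or.inl ⟨h1.1, h1.2.1⟩)).symm
  · rw [← h1.2.1, ← h2.2.2.1]; exact hv.pw h1.1 h2.1 h2.2.1
  · rw [← h1.2.1, ← h2.2.2.1]; exact hv.po h1.1 h2.1 h2.2.1
  · exact hQ h1 (Or.inl ⟨h2.1, h2.2.1⟩)
  · exact absurd (Fin.ext (by omega)) hbc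
  · exact hQ h1 (Or.inr (Or.inl ⟨h2.1, h2.2.1, h2.2.2.1⟩))
  · exact hQ h1 (Or.inr (Or.inr ⟨h2.1, h2.2.1, h2.2.2.1⟩))
  · rw [← h2.2.1, ← h1.2.2.1]; exact (hv.pw h2.1 h1.1 h1.2.1).symm
  · exact (hQ h2 (Or.inr (Or.inl ⟨h1.1, h1.2.1, h1.2.2.1⟩))).symm
  · exfalso
    obtain ⟨_, _, _, _, i, hi, h3, h4⟩ := h1
    obtain ⟨_, _, _, _, j, hj, h5, h6⟩ := h2
    rcases Nat.lt_trichotomy i j with hij | hij | hij
    · have := hsw.gap i hi j hj hij; have := hsw.le i hi; have := hsw.le j hj; omega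
    · subst hij; exact hbc (Fin.ext (by omega))
    · have := hsw.gap j hj i hi hij; have := hsw.le i hi; have := hsw.le j hj; omega
  · rw [← h2.2.2.1, ← h1.2.2.1]; exact (hv.ow h2.1 h2.2.1 h1.1 h1.2.1).symm
  · rw [← h2.2.1, ← h1.2.2.1]; exact (hv.po h2.1 h1.1 h1.2.1).symm
  · exact (hQ h2 (Or.inr (Or.inr ⟨h1.1, h1.2.1, h1.2.2.1⟩))).symm
  · rw [← h2.2.2.1, ← h1.2.2.1]; exact hv.ow h1.1 h1.2.1 h2.1 h2.2.1
  · exfalso
    obtain ⟨_, _, _, _, i, hi, h3, h4⟩ := h1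
    obtain ⟨_, _, _, _, j, hj, h5, h6⟩ := h2
    rcases Nat.lt_trichotomy i j with hij | hij | hij
    · have := hsw.gap i hi j hj hij; have := hsw.le i hi; have := hsw.le j hj; omega
    · subst hij; exact hbc (Fin.ext (by omega))
    · have := hsw.gap j hj i hi hij; have := hsw.le i hi; have := hsw.le j hj; omega

end sound

end Pool.Agent.H640.PL
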