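import Pool.Agent.Helper640.PL.Dec

/-!
# Path-like trees: the decision procedure is polynomial
-/

namespace Pool.Agent.H640.PL

open Pool.Agent.NPC Pool.Agent.H719.PC Pool.Agent.H420.Gr

section poly

variable {α : Type} [TEnc α] {M : α → List (List Bool)} {a b : α → ℕ} {y z : α → Tup}

@[fun_prop]
theorem poly_adjB (hM : Poly M) (ha : Poly a) (hb : Poly b) :
    Poly (fun x => adjB (M x) (a x) (b x)) := by
  have h1 := poly_entry hM ha hb
  have h2 := poly_entry hM hb ha
  unfold adjB
  exact Poly.and (Poly.not (Poly.decide_eq ha hb)) (Poly.or h1 h2)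

@[fun_prop]
theorem poly_rangeLen (hM : Poly M) : Poly (fun x => List.range (M x).length) :=
  (UPoly.length hM).range

@[fun_prop]
theorem poly_allT (hM : Poly M) : Poly (fun x => allT (M x).length) := by
  have h := poly_rangeLen hM
  have h0 : Poly (fun _ : α => [false, true]) := NPC.Poly.const _
  have h1 := R671.poly_product h0 (R671.poly_product h (R671.poly_product h h))
  exact R671.poly_product h (R671.poly_product h (R671.poly_product (R671.poly_product h0 h)
    (R671.poly_product h1 h1)))

theorem poly_connB (hM : Poly M) : Poly (fun x => connB (adjB (M x)) (M x).length) := by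
  unfold connB
  fun_prop

theorem poly_acycB (hM : Poly M) : Poly (fun x => acycB (adjB (M x)) (M x).length) := by
  unfold acycB
  fun_prop

theorem poly_validB (hM : Poly M) (hy : Poly y) :
    Poly (fun x => validB (adjB (M x)) (M x).length (toSt (y x))) := by
  simp only [validB, toSt]
  fun_prop

theorem poly_rowB (hM : Poly M) (hy : Poly y) (hz : Poly z) :
    Poly (fun x => rowB (adjB (M x)) (toSt (y x)) (toSt (z x))) := by
  simp only [rowB, toSt]
  fun_prop

theorem poly_switchB (hy : Poly y) (hz : Poly z) :
    Poly (fun x => switchB (toSt (y x)) (toSt (z x))) := by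
  simp only [switchB, toSt]
  fun_prop

theorem poly_c (hy : Poly y) : Poly (fun x => (toSt (y x)).c) := Poly.fst hy

@[fun_prop]
theorem poly_stepB (hM : Poly M) (hy : Poly y) (hz : Poly z) :
    Poly (fun x => stepB (adjB (M x)) (M x).length (toSt (y x)) (toSt (z x))) := by
  unfold stepB
  exact Poly.and (Poly.and (Poly.decide_eq (poly_c hz) (Poly.add (poly_c hy) (NPC.Poly.const 1)))
    (poly_validB hM hz)) (Poly.or (poly_rowB hM hy hz) (poly_switchB hy hz))

@[fun_prop]
theorem poly_firstB (hM : Poly M) (hy : Poly y) :
    Poly (fun x => firstB (adjB (M x)) (M x).length (toSt (y x))) := by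
  have h := poly_validB hM hy
  simp only [firstB]
  have h1 : Poly (fun x => (!(toSt (y x)).pf) && (!(toSt (y x)).of) &&
      (!(toSt (y x)).nf || decide ((toSt (y x)).nk = 0))) := by
    simp only [toSt]
    fun_prop
  refine (Poly.and (Poly.and (Poly.decide_eq (poly_c hy) (NPC.Poly.const 0)) h) h1).congr ?_
  intro x
  simp only [Bool.and_assoc]

@[fun_prop]
theorem poly_lastB (hM : Poly M) (hy : Poly y) :
    Poly (fun x => lastB (M x).length (toSt (y x))) := by
  simp only [lastB, toSt]
  fun_prop

theorem poly_runB (hM : Poly M) : Poly (fun x => runB (adjB (M x)) (M x).length) := by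
  unfold runB
  fun_prop

theorem poly_decB : Poly decB := by
  unfold decB
  have h1 := poly_connB (M := fun M : List (List Bool) => M) Poly.id
  have h2 := poly_acycB (M := fun M : List (List Bool) => M) Poly.id
  have h3 := poly_runB (M := fun M : List (List Bool) => M) Poly.id
  have h0 : Poly (fun M : List (List Bool) => decide (0 < M.length)) :=
    Poly.decide_lt (NPC.Poly.const 0) (Poly.length Poly.id)
  exact Poly.and (Poly.and (Poly.and h0 h1) h2) h3

end poly

/-- Recognising path-like trees is in `P`. -/
theorem inPP_isPathLike : InPP (fun M : List (List Bool) => IsPathLike (graphOf M)) :=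
  inPP_of poly_decB decB_iff

end Pool.Agent.H640.PL
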