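import Pool.Agent.Helper640.PL.Mach

/-!
# Path-like trees: locally injective homomorphisms into a tree
-/

namespace Pool.Agent.H640.PL

open SimpleGraph

section loc

variable {V W : Type*} {H : SimpleGraph V} {G : SimpleGraph W}

/-- the image of a path under a locally injective homomorphism into an acyclic graph is a path -/
theorem map_isPath (hG : G.IsAcyclic) (f : H →g G)
    (hf : ∀ a b c, H.Adj a b → H.Adj a c → b ≠ c → f b ≠ f c) {x y : V} (p : H.Walk x y)
    (hp : p.IsPath) : (p.map f).IsPath := by
  rw [hG.isPath_iff_isChain]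
  induction p with
  | nil => simp
  | @cons u v w h p ih =>
    rw [Walk.cons_isPath_iff] at hp
    have ih := ih hp.1
    cases p with
    | nil => simp
    | @cons _ v' _ h' q =>
      rw [Walk.map_cons, Walk.edges_cons, Walk.map_cons, Walk.edges_cons]
      rw [Walk.map_cons, Walk.edges_cons] at ih
      refine List.IsChain.cons_cons ?_ ih
      intro he
      have h1 : f u ≠ f v' := hf v u v' h.symm h' (by
        rintro rfl
        apply hp.2
        simp)
      rw [Sym2.eq_iff] at he
      rcases he with ⟨h2, h3⟩ | ⟨h2, _⟩
      · exact (f.map_adj h).ne h2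
      · exact h1 h2

theorem locInj_injective (hG : G.IsAcyclic) (hH : H.Connected) (f : H →g G)
    (hf : ∀ a b c, H.Adj a b → H.Adj a c → b ≠ c → f b ≠ f c) : Function.Injective f := by
  intro x y hxy
  by_contra hne
  obtain ⟨p, hp⟩ := (hH.preconnected x y).exists_isPath
  have h1 := map_isPath hG f hf p hp
  have h2 : ((p.map f).copy rfl hxy.symm).IsPath := by rwa [Walk.isPath_copy]
  have h3 := congrArg (fun q : G.Path (f x) (f x) => (q : G.Walk (f x) (f x)).length)
    (Subsingleton.elim (h := hG.subsingleton_path _ _)
      (⟨_, h2⟩ : G.Path (f x) (f x)) ⟨Walk.nil, Walk.IsPath.nil⟩)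
  simp only [Walk.length_copy, Walk.length_map, Walk.length_nil] at h3
  exact hne (Walk.eq_of_length_eq_zero h3)

theorem locInj_adj (hG : G.IsAcyclic) (hH : H.Connected) (f : H →g G)
    (hf : ∀ a b c, H.Adj a b → H.Adj a c → b ≠ c → f b ≠ f c) {x y : V}
    (h : G.Adj (f x) (f y)) : H.Adj x y := by
  obtain ⟨p, hp⟩ := (hH.preconnected x y).exists_isPath
  have h1 := map_isPath hG f hf p hp
  have h2 : (Walk.cons h Walk.nil).IsPath := by
    simp [h.ne]
  have h3 := Subsingleton.elim (h := hG.subsingleton_path _ _) (⟨_, h1⟩ : G.Path (f x) (f y)) ⟨_, h2⟩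
  have h4 := congrArg (fun q : G.Path (f x) (f y) => (q : G.Walk (f x) (f y)).length) h3
  simp only [Walk.length_map, Walk.length_cons, Walk.length_nil] at h4
  exact Walk.adj_of_length_eq_one h4

/-- a locally injective homomorphism between connected graphs of the same finite order, the second
of which is a tree, is an isomorphism -/
theorem locInj_iso [Finite V] (hG : G.IsAcyclic) (hH : H.Connected) (f : H →g G)
    (hf : ∀ a b c, H.Adj a b → H.Adj a c → b ≠ c → f b ≠ f c) (hb : Function.Surjective f) :
    Nonempty (G ≃g H) := by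
  have h1 : Function.Bijective f := ⟨locInj_injective hG hH f hf, hb⟩
  refine ⟨SimpleGraph.Iso.symm ⟨Equiv.ofBijective f h1, ?_⟩⟩
  intro a b
  exact ⟨fun h => locInj_adj hG hH f hf h, fun h => f.map_adj h⟩

end loc

/-- the transformed path is connected -/
theorem transformed_connected {n : ℕ} (hn : 0 < n) {S : Finset ℕ} {κ : ℕ → ℕ} (hS : Sw n S κ) :
    (transformed n S κ).Connected := by
  have row : ∀ a b : ℕ, (hab : a ≤ b) → (hb : b < n) → (∀ s, a ≤ s → s < b → s ∉ S) →
      (transformed n S κ).Reachable ⟨a, by omega⟩ ⟨b, hb⟩ := by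
    intro a b hab
    induction b, hab using Nat.le_induction with
    | base => exact fun _ _ => Reachable.refl _
    | succ b hab ih =>
      intro hb hs
      refine (ih (by omega) fun s h1 h2 => hs s h1 (by omega)).trans (Adj.reachable ?_)
      refine ⟨?_, Or.inl ⟨rfl, hs b hab (by omega)⟩⟩
      intro h
      have := congrArg Fin.val h
      simp only at this
      omega
  have main : ∀ t, (ht : t < n) → (transformed n S κ).Reachable ⟨0, hn⟩ ⟨t, ht⟩ := by
    intro t
    induction t using Nat.strong_induction_on with
    | _ t ih =>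
      intro ht
      rcases Nat.eq_zero_or_pos t with rfl | h0
      · exact Reachable.refl _
      · obtain ⟨i, rfl⟩ : ∃ i, t = i + 1 := ⟨t - 1, by omega⟩
        by_cases hi : i ∈ S
        · have h1 := hS.lt i hi
          have h2 := hS.pos i hi
          have h3 := hS.le i hi
          have r1 := row (i + 1) (i + 1 + κ i) (by omega) h1 fun s g1 g2 g3 => by
            have := (hS.gap i hi s g3 (by omega)).1
            omega
          have r2 : (transformed n S κ).Adj ⟨i - κ i, by omega⟩ ⟨i + 1 + κ i, h1⟩ := by
            refine ⟨?_, Or.inr (Or.inr ⟨i, hi, Or.inl ⟨rfl, rfl⟩⟩)⟩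
            intro h
            have := congrArg Fin.val h
            simp only at this
            omega
          exact ((ih (i - κ i) (by omega) (by omega)).trans r2.reachable).trans r1.symm
        · exact (ih i (by omega) (by omega)).trans
            (row i (i + 1) (by omega) ht fun s g1 g2 g3 => hi (by
              have : s = i := by omega
              rwa [this] at g3))
  have : Nonempty (Fin n) := ⟨⟨0, hn⟩⟩
  exact ⟨fun a b => (main a a.2).symm.trans (main b b.2)⟩

end Pool.Agent.H640.PL
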